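import Pool.Agent.Lib_helper33.ASM.TStmts

/-!
# Module T3: kernels of infinite configurations
-/

set_option autoImplicit false

open scoped BigOperators ENNReal
open MeasureTheory Filter Topology

namespace Pool.Agent.Lib_helper33.ASM

namespace T3

variable {d : ℕ} {x : ℕ → Sp d}

/-- shorter adjacent pair -/
def rel (x : ℕ → Sp d) (e' e : ℕ × ℕ) : Prop :=
  (e'.1 = e.1 ∨ e'.1 = e.2) ∧ dist (x e'.1) (x e'.2) < dist (x e.1) (x e.2)

lemma fin_near (hx : Nice x) (i : ℕ) (r : ℝ) : {k | dist (x i) (x k) ≤ r}.Finite := by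
  refine (hx.lf (‖x i‖ + r)).subset ?_
  intro k hk
  have h1 : dist (x i) (x k) ≤ r := hk
  have h2 : ‖x k‖ ≤ ‖x i‖ + dist (x i) (x k) := by
    have := norm_sub_norm_le (x k) (x i)
    rw [dist_comm, dist_eq_norm]
    linarith
  show ‖x k‖ ≤ ‖x i‖ + r
  linarith

/-- the bad point with the minimal distance -/
lemma exists_min (hx : Nice x) (i : ℕ) (B : ℕ → Prop) (hB : ∃ k, B k) :
    ∃ k, B k ∧ ∀ l, B l → dist (x i) (x k) ≤ dist (x i) (x l) := by
  obtain ⟨k0, hk0⟩ := hB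
  have hf : {k | B k ∧ dist (x i) (x k) ≤ dist (x i) (x k0)}.Finite :=
    (fin_near hx i (dist (x i) (x k0))).subset (fun k hk => hk.2)
  have hne : {k | B k ∧ dist (x i) (x k) ≤ dist (x i) (x k0)}.Nonempty := ⟨k0, hk0, le_refl _⟩
  obtain ⟨k, hk, hmin⟩ := Set.exists_min_image _ (fun k => dist (x i) (x k)) hf hne
  refine ⟨k, hk.1, fun l hl => ?_⟩
  rcases le_or_gt (dist (x i) (x l)) (dist (x i) (x k0)) with h | h
  · exact hmin l ⟨hl, h⟩
  · exact hk.2.trans h.le

lemma wf (hx : Nice x) : WellFounded (rel x) := by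
  refine ⟨?_⟩
  by_contra hcon
  push Not at hcon
  obtain ⟨⟨i0, j0⟩, h0⟩ := hcon
  -- the bad points
  let Bad : ℕ → ℕ → Prop := fun i k => ¬ Acc (rel x) (i, k)
  have key : ∀ i, (∃ k, Bad i k) → ∃ k, Bad i k ∧ ∀ l, Bad i l → dist (x i) (x k) ≤ dist (x i) (x l) :=
    fun i hi => exists_min hx i (Bad i) hi
  classical
  let nx : ℕ → ℕ := fun i => if h : ∃ k, Bad i k then (key i h).choose else i
  have nx1 : ∀ i, (∃ k, Bad i k) → Bad i (nx i) := by
    intro i hi
    have : nx i = (key i hi).choose := dif_pos hi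
    rw [this]
    exact (key i hi).choose_spec.1
  have nx2 : ∀ i, (∃ k, Bad i k) → ∀ l, Bad i l → dist (x i) (x (nx i)) ≤ dist (x i) (x l) := by
    intro i hi
    have : nx i = (key i hi).choose := dif_pos hi
    rw [this]
    exact (key i hi).choose_spec.2
  have step : ∀ i, (∃ k, Bad i k) → (∃ k, Bad (nx i) k) ∧
      dist (x (nx i)) (x (nx (nx i))) < dist (x i) (x (nx i)) := by
    intro i hi
    have h1 := nx1 i hi
    have h2 : ∃ e', rel x e' (i, nx i) ∧ ¬ Acc (rel x) e' := by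
      by_contra hc
      push Not at hc
      exact h1 (Acc.intro _ hc)
    obtain ⟨⟨a, b⟩, ⟨hab, hlt⟩, hacc⟩ := h2
    simp only at hab hlt
    rcases hab with hab | hab
    · subst hab
      exact absurd (nx2 a hi b hacc) (not_le.2 hlt)
    · subst hab
      have h3 : ∃ k, Bad (nx i) k := ⟨b, hacc⟩
      exact ⟨h3, lt_of_le_of_lt (nx2 (nx i) h3 b hacc) hlt⟩
  let s : ℕ → ℕ := fun n => nx^[n] i0
  have hs : ∀ n, s (n + 1) = nx (s n) := fun n => Function.iterate_succ_apply' nx n i0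
  have hbad : ∀ n, ∃ k, Bad (s n) k := by
    intro n
    induction n with
    | zero => exact ⟨j0, h0⟩
    | succ n ih => rw [hs n]; exact (step (s n) ih).1
  refine hx.nochain ⟨s, fun n => ?_⟩
  have h4 := (step (s n) (hbad n)).2
  rw [← hs n, ← hs (n + 1)] at h4
  refine ⟨fun heq => ?_, h4⟩
  rw [← heq, dist_self] at h4
  exact absurd h4 (not_lt.2 dist_nonneg)

lemma exists_ker' (hx : Nice x) (ω : Cfg ℕ) : ∃ M, IsKer x ω M := by
  let F : (e : ℕ × ℕ) → ((e' : ℕ × ℕ) → rel x e' e → Prop) → Prop := fun e R =>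
    Ok ω e.1 e.2 ∧ ∀ k,
      (∀ h : dist (x e.1) (x k) < dist (x e.1) (x e.2), ¬ R (e.1, k) ⟨Or.inl rfl, h⟩) ∧
      (∀ h : dist (x e.2) (x k) < dist (x e.1) (x e.2), ¬ R (e.2, k) ⟨Or.inr rfl, h⟩)
  refine ⟨fun i j => (wf hx).fix F (i, j), fun i j => ?_⟩
  have hfix : (wf hx).fix F (i, j) = _ := (wf hx).fix_eq F (i, j)
  change (wf hx).fix F (i, j) ↔ Ok ω i j ∧
      ∀ k, ((wf hx).fix F (i, k) → dist (x i) (x j) ≤ dist (x i) (x k)) ∧
          ((wf hx).fix F (j, k) → dist (x i) (x j) ≤ dist (x j) (x k))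
  rw [hfix]
  constructor
  · rintro ⟨h1, h2⟩
    refine ⟨h1, fun k => ⟨fun hk => ?_, fun hk => ?_⟩⟩
    · by_contra hlt
      push Not at hlt
      exact (h2 k).1 hlt hk
    · by_contra hlt
      push Not at hlt
      exact (h2 k).2 hlt hk
  · rintro ⟨h1, h2⟩
    refine ⟨h1, fun k => ⟨fun hlt hk => ?_, fun hlt hk => ?_⟩⟩
    · exact absurd ((h2 k).1 hk) (not_le.2 hlt)
    · exact absurd ((h2 k).2 hk) (not_le.2 hlt)

/-- comparison of two kernels at a pair -/
lemma ker_step {ω ω' : Cfg ℕ} {M M' : ℕ → ℕ → Prop} (h : IsKer x ω M) (h' : IsKer x ω' M')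
    {i j : ℕ} (hok : Ok ω' i j ↔ Ok ω i j)
    (hi : ∀ k, dist (x i) (x k) < dist (x i) (x j) → (M' i k ↔ M i k))
    (hj : ∀ k, dist (x j) (x k) < dist (x i) (x j) → (M' j k ↔ M j k)) :
    M' i j ↔ M i j := by
  rw [h' i j, h i j, hok]
  refine and_congr_right fun _ => forall_congr' fun k => and_congr ?_ ?_
  · rcases lt_or_ge (dist (x i) (x k)) (dist (x i) (x j)) with hlt | hge
    · rw [hi k hlt]
    · exact ⟨fun _ _ => hge, fun _ _ => hge⟩
  · rcases lt_or_ge (dist (x j) (x k)) (dist (x i) (x j)) with hlt | hge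
    · rw [hj k hlt]
    · exact ⟨fun _ _ => hge, fun _ _ => hge⟩

lemma ker_unique (hx : Nice x) {ω : Cfg ℕ} {M M' : ℕ → ℕ → Prop} (h : IsKer x ω M)
    (h' : IsKer x ω M') : M' = M := by
  funext i j
  apply propext
  refine (wf hx).induction (C := fun e => M' e.1 e.2 ↔ M e.1 e.2) (i, j) ?_
  rintro ⟨i, j⟩ ih
  exact ker_step h h' Iff.rfl (fun k hk => ih (i, k) ⟨Or.inl rfl, hk⟩)
    (fun k hk => ih (j, k) ⟨Or.inr rfl, hk⟩)

lemma mt_eq' (hx : Nice x) {ω : Cfg ℕ} {M : ℕ → ℕ → Prop} (h : IsKer x ω M) : mt x ω = M := by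
  funext i j
  apply propext
  constructor
  · rintro ⟨M', h1, h2⟩
    rwa [ker_unique hx h h1] at h2
  · intro h2
    exact ⟨M, h, h2⟩

lemma isKer_mt' (hx : Nice x) (ω : Cfg ℕ) : IsKer x ω (mt x ω) := by
  obtain ⟨M, hM⟩ := exists_ker' hx ω
  rw [mt_eq' hx hM]
  exact hM

lemma loc (hx : Nice x) (ω : Cfg ℕ) (i j : ℕ) : ∃ F : Finset ℕ, ∀ Λ : Set ℕ, (F : Set ℕ) ⊆ Λ →
    (mt x (er ω Λᶜ) i j ↔ mt x ω i j) := by
  refine (wf hx).induction (C := fun e => ∃ F : Finset ℕ, ∀ Λ : Set ℕ, (F : Set ℕ) ⊆ Λ →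
    (mt x (er ω Λᶜ) e.1 e.2 ↔ mt x ω e.1 e.2)) (i, j) ?_
  rintro ⟨i, j⟩ ih
  classical
  choose! F hF using ih
  have f1 := fin_near hx i (dist (x i) (x j))
  have f2 := fin_near hx j (dist (x i) (x j))
  refine ⟨({i, j} : Finset ℕ) ∪ (f1.toFinset.biUnion fun k => F (i, k)) ∪
    (f2.toFinset.biUnion fun k => F (j, k)), fun Λ hΛ => ?_⟩
  have hi : i ∈ Λ := hΛ (by simp)
  have hj : j ∈ Λ := hΛ (by simp)
  refine ker_step (isKer_mt' hx ω) (isKer_mt' hx (er ω Λᶜ)) ?_ ?_ ?_
  · have e1 : er ω Λᶜ i = ω i := by simp [er, hi]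
    have e2 : er ω Λᶜ j = ω j := by simp [er, hj]
    simp only [Ok, e1, e2]
  · intro k hk
    refine hF (i, k) ⟨Or.inl rfl, hk⟩ Λ (fun a ha => hΛ ?_)
    simp only [Finset.coe_union, Finset.coe_biUnion, Set.mem_union, Set.mem_iUnion]
    left; right
    exact ⟨k, by simpa using hk.le, ha⟩
  · intro k hk
    refine hF (j, k) ⟨Or.inr rfl, hk⟩ Λ (fun a ha => hΛ ?_)
    simp only [Finset.coe_union, Finset.coe_biUnion, Set.mem_union, Set.mem_iUnion]
    right
    exact ⟨k, by simpa using hk.le, ha⟩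

lemma ker_of_stable (hx : Nice x) {c : ℕ → Bool} {m : ℕ → ℕ} (h : IsStableMatching x c m) :
    IsKer x (full c) (fun i j => i ≠ j ∧ m i = j) := by
  intro i j
  constructor
  · rintro ⟨hij, hm⟩
    have h1 : m j = i := by rw [← hm]; exact h.invol i
    have h2 : m i ≠ i := by rw [hm]; exact hij.symm
    refine ⟨⟨hij, by simp [full], by simp [full], ?_⟩, fun k => ⟨?_, ?_⟩⟩
    · rcases h.allowed i h2 with h3 | h3
      · left; simp [full, h3]
      · right; rw [hm] at h3; simp [full, h3]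
    · rintro ⟨_, hk⟩
      rw [← hk, hm]
    · rintro ⟨_, hk⟩
      rw [← hk, h1, dist_comm]
  · rintro ⟨hok, hk⟩
    refine ⟨hok.1, ?_⟩
    have hc : c i = true ∨ c j = true := by
      rcases hok.2.2.2 with h3 | h3
      · left; simpa [full] using h3
      · right; simpa [full] using h3
    have h1 := h.stable i j hok.1 hc
    rw [not_and_or, not_lt, not_lt] at h1
    rcases h1 with h1 | h1
    · have h2 : m i ≠ i := by
        intro h2
        simp only [mdist, h2, if_true] at h1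
        exact absurd (top_le_iff.1 h1) (edist_ne_top _ _)
      simp only [mdist, if_neg h2, edist_dist] at h1
      rw [ENNReal.ofReal_le_ofReal_iff dist_nonneg] at h1
      have h3 := (hk (m i)).1 ⟨h2.symm, rfl⟩
      rcases hx.gen i j i (m i) hok.1 h2.symm (le_antisymm h3 h1) with h4 | h4
      · exact h4.2.symm
      · exact absurd h4.1.symm h2
    · have h2 : m j ≠ j := by
        intro h2
        simp only [mdist, h2, if_true] at h1
        exact absurd (top_le_iff.1 h1) (edist_ne_top _ _)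
      simp only [mdist, if_neg h2, edist_dist] at h1
      rw [ENNReal.ofReal_le_ofReal_iff dist_nonneg] at h1
      have h3 := (hk (m j)).2 ⟨h2.symm, rfl⟩
      rcases hx.gen i j j (m j) hok.1 h2.symm (le_antisymm h3 h1) with h4 | h4
      · exact absurd h4.1 hok.1
      · rw [h4.1]; exact h.invol j

lemma stable_iff (hx : Nice x) {c : ℕ → Bool} {m : ℕ → ℕ} (h : IsStableMatching x c m)
    {i j : ℕ} (hij : i ≠ j) : m i = j ↔ mt x (full c) i j := by
  rw [mt_eq' hx (ker_of_stable hx h)]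
  exact ⟨fun h1 => ⟨hij, h1⟩, fun h1 => h1.2⟩

lemma exists_stable (hx : Nice x) (c : ℕ → Bool) : ∃ m, IsStableMatching x c m := by
  classical
  obtain ⟨M, hM⟩ := exists_ker' hx (full c)
  let m : ℕ → ℕ := fun i => if h : ∃ j, M i j then h.choose else i
  have m1 : ∀ i j, M i j → m i = j := by
    intro i j hij
    have hex : ∃ j, M i j := ⟨j, hij⟩
    have : m i = hex.choose := dif_pos hex
    rw [this]
    exact hM.unique_partner hx.gen hex.choose_spec hij
  have m2 : ∀ i, m i ≠ i → M i (m i) := by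
    intro i hi
    by_cases hex : ∃ j, M i j
    · obtain ⟨j, hj⟩ := hex
      rw [m1 i j hj]; exact hj
    · exact absurd (dif_neg hex) hi
  refine ⟨m, ⟨fun i => ?_, fun i hi => ?_, fun i j hij hc => ?_⟩⟩
  · by_cases hi : m i = i
    · rw [hi, hi]
    · exact m1 _ _ (hM.symm (m2 i hi))
  · rcases (hM.ok (m2 i hi)).2.2.2 with h | h
    · left; simpa [full] using h
    · right; simpa [full] using h
  · rintro ⟨h1, h2⟩
    have hok : Ok (full c) i j := by
      refine ⟨hij, by simp [full], by simp [full], ?_⟩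
      rcases hc with h | h
      · left; simp [full, h]
      · right; simp [full, h]
    by_cases hM1 : M i j
    · have h3 := m1 i j hM1
      have h4 : m i ≠ i := by rw [h3]; exact hij.symm
      simp only [mdist, if_neg h4] at h1
      rw [h3] at h1
      exact lt_irrefl _ h1
    · obtain ⟨k, hk⟩ := hM.stable hok hM1
      rcases hk with ⟨hk1, hk2⟩ | ⟨hk1, hk2⟩
      · have h3 := m1 i k hk1
        have h4 : m i ≠ i := by rw [h3]; exact (hM.ok hk1).1.symm
        simp only [mdist, if_neg h4, edist_dist] at h1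
        rw [h3, ENNReal.ofReal_lt_ofReal_iff_of_nonneg dist_nonneg] at h1
        exact absurd h1 (not_lt.2 hk2.le)
      · have h3 := m1 j k hk1
        have h4 : m j ≠ j := by rw [h3]; exact (hM.ok hk1).1.symm
        simp only [mdist, if_neg h4, edist_dist] at h2
        rw [h3, ENNReal.ofReal_lt_ofReal_iff_of_nonneg dist_nonneg] at h2
        exact absurd h2 (not_lt.2 hk2.le)

end T3

open T3 in
/-- Module T3. -/
theorem stmtT3 : StmtT3 := by
  intro d x hx
  refine ⟨fun ω => ⟨?_, isKer_mt' hx ω⟩, fun ω i j => loc hx ω i j, fun c => ⟨?_, ?_⟩⟩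
  · obtain ⟨M, hM⟩ := exists_ker' hx ω
    exact ⟨M, hM, fun M' hM' => ker_unique hx hM hM'⟩
  · obtain ⟨m, hm⟩ := exists_stable hx c
    refine ⟨m, hm, fun m' hm' => ?_⟩
    funext i
    by_cases h1 : m i = i
    · by_contra h2
      have h3 : i ≠ m' i := fun h => h2 (by rw [← h, h1])
      have h4 := (stable_iff hx hm h3).2 ((stable_iff hx hm' h3).1 rfl)
      exact h2 h4.symm
    · have h3 : i ≠ m i := fun h => h1 h.symm
      exact (stable_iff hx hm' h3).2 ((stable_iff hx hm h3).1 rfl)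
  · intro m hm i j hij
    exact stable_iff hx hm hij

end Pool.Agent.Lib_helper33.ASM
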