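import Pool.Agent.Lib_helper77.ASM.T5d

/-!
# T5: limits, translation invariance, mass transport
-/

set_option autoImplicit false
set_option linter.unusedSectionVars false
set_option linter.style.haveILetI false

open scoped BigOperators ENNReal
open MeasureTheory Filter Topology

namespace Pool.Agent.Lib_helper33.ASM

variable {d : ℕ} {p : ℝ} {Ω : Type} [MeasurableSpace Ω] {P : Measure Ω} [IsProbabilityMeasure P]
  {X : ℕ → Ω → Sp d} {c : ℕ → Ω → Bool}

lemma exists_box (j : Fin d → ℤ) : ∃ n0 : ℕ, ∀ n, n0 ≤ n → ∀ i, -(n : ℤ) ≤ j i ∧ j i < n := by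
  refine ⟨(Finset.univ.sup fun i => (j i).natAbs) + 1, fun n hn i => ?_⟩
  have h1 : (j i).natAbs ≤ Finset.univ.sup fun i => (j i).natAbs :=
    Finset.le_sup (f := fun i => (j i).natAbs) (Finset.mem_univ i)
  omega

lemma main_uc (h1 : StmtT1) (h2 : StmtT2) (h3 : StmtT3) (h4a : StmtT4a) (h4b : StmtT4b)
    (hd : 0 < d) (hp : 0 < p) (hp1 : p < 1) (hX : IsColouredPoisson P p X c)
    (y : (n k : ℕ) → (Fin d → Fin (2 * n * k)) → Sp d)
    (hy : ∀ n k, 0 < n → 0 < k → Gen (y n k) ∧ ∀ s, y n k s ∈ cell n k s) (b : Bool)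
    (v j : Fin d → ℤ) (t : ℕ) :
    ∃ n0 : ℕ, (∀ n, n0 ≤ n → 0 < n → Tendsto (fun k : ℕ =>
        ex ((1 / k : ℝ) ^ d * Real.exp (-(1 / k : ℝ) ^ d)) p (fun η => uc (y n k) η b j t)) atTop
        (𝓝 (∫ ω, uc (fun i => X i ω) (bcf (fun i => X i ω) (fun i => c i ω) v n) b (v + j) t ∂P))) ∧
      Integrable (fun ω => uc (fun i => X i ω) (full (fun i => c i ω)) b (v + j) t) P ∧
      Tendsto (fun n : ℕ =>
        ∫ ω, uc (fun i => X i ω) (bcf (fun i => X i ω) (fun i => c i ω) v n) b (v + j) t ∂P) atTop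
        (𝓝 (∫ ω, uc (fun i => X i ω) (full (fun i => c i ω)) b (v + j) t ∂P)) := by
  obtain ⟨n0, hn0⟩ := exists_box j
  have hnice := h2 d p hp hp1 Ω P X c hd hX
  have key := lim_lemma h1 h4b hd hp hp1 hX (count_integrable h2 hd hp hp1 hX (v + j))
    (fun n k η => uc (y n k) η b j t) v
    (fun n ω => uc (fun i => X i ω) (bcf (fun i => X i ω) (fun i => c i ω) v n) b (v + j) t)
    (fun ω => uc (fun i => X i ω) (full (fun i => c i ω)) b (v + j) t) n0 ?_ ?_ ?_
  · exact ⟨n0, fun n hn hn' => (key.1 n hn hn').2, key.2⟩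
  · filter_upwards [hnice] with ω hω n k hn hk
    rw [abs_of_nonneg (uc_nonneg _ _ _ _ _)]
    refine (uc_le_occ _ _ _ _ _).trans ?_
    exact_mod_cast occ_le h4b hd hn hk (hy n k hn hk).2 _ v j (nice_finite hω (v + j))
  · intro n hn hn'
    filter_upwards [hnice] with ω hω
    obtain ⟨K, hK, hK2⟩ := h4a d (fun i => X i ω) (fun i => c i ω) hd hω v n hn' t
    filter_upwards [eventually_ge_atTop K] with k hk
    exact (hK2 k hk (y n k) (hy n k hn' (hK.trans_le hk)).1 (hy n k hn' (hK.trans_le hk)).2).1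
      b j t le_rfl (hn0 n hn)
  · filter_upwards [hnice] with ω hω
    exact uc_bcf h3 hω _ v (v + j) b t

lemma main_pc (h1 : StmtT1) (h2 : StmtT2) (h3 : StmtT3) (h4a : StmtT4a) (h4b : StmtT4b)
    (hd : 0 < d) (hp : 0 < p) (hp1 : p < 1) (hX : IsColouredPoisson P p X c)
    (y : (n k : ℕ) → (Fin d → Fin (2 * n * k)) → Sp d)
    (hy : ∀ n k, 0 < n → 0 < k → Gen (y n k) ∧ ∀ s, y n k s ∈ cell n k s) (b b' : Bool)
    (v j j' : Fin d → ℤ) (t : ℕ) :
    ∃ n0 : ℕ, (∀ n, n0 ≤ n → 0 < n → Tendsto (fun k : ℕ =>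
        ex ((1 / k : ℝ) ^ d * Real.exp (-(1 / k : ℝ) ^ d)) p (fun η => pc (y n k) η b b' j j' t))
        atTop (𝓝 (∫ ω, pc (fun i => X i ω) (bcf (fun i => X i ω) (fun i => c i ω) v n) b b'
          (v + j) (v + j') t ∂P))) ∧
      Integrable (fun ω => pc (fun i => X i ω) (full (fun i => c i ω)) b b' (v + j) (v + j') t) P ∧
      Tendsto (fun n : ℕ =>
        ∫ ω, pc (fun i => X i ω) (bcf (fun i => X i ω) (fun i => c i ω) v n) b b'
          (v + j) (v + j') t ∂P) atTop
        (𝓝 (∫ ω, pc (fun i => X i ω) (full (fun i => c i ω)) b b' (v + j) (v + j') t ∂P)) := by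
  obtain ⟨n0, hn0⟩ := exists_box j
  obtain ⟨n1, hn1⟩ := exists_box j'
  have hnice := h2 d p hp hp1 Ω P X c hd hX
  have key := lim_lemma h1 h4b hd hp hp1 hX (count_integrable h2 hd hp hp1 hX (v + j))
    (fun n k η => pc (y n k) η b b' j j' t) v
    (fun n ω => pc (fun i => X i ω) (bcf (fun i => X i ω) (fun i => c i ω) v n) b b'
      (v + j) (v + j') t)
    (fun ω => pc (fun i => X i ω) (full (fun i => c i ω)) b b' (v + j) (v + j') t)
    (max n0 n1) ?_ ?_ ?_
  · exact ⟨max n0 n1, fun n hn hn' => (key.1 n hn hn').2, key.2⟩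
  · filter_upwards [hnice] with ω hω n k hn hk
    rw [abs_of_nonneg (pc_nonneg _ _ _ _ _ _ _)]
    refine (pc_le_occ (hy n k hn hk).1 _ _ _ _ _ _).trans ?_
    exact_mod_cast occ_le h4b hd hn hk (hy n k hn hk).2 _ v j (nice_finite hω (v + j))
  · intro n hn hn'
    filter_upwards [hnice] with ω hω
    obtain ⟨K, hK, hK2⟩ := h4a d (fun i => X i ω) (fun i => c i ω) hd hω v n hn' t
    filter_upwards [eventually_ge_atTop K] with k hk
    exact (hK2 k hk (y n k) (hy n k hn' (hK.trans_le hk)).1 (hy n k hn' (hK.trans_le hk)).2).2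
      b b' j j' t le_rfl (hn0 n ((le_max_left _ _).trans hn)) (hn1 n ((le_max_right _ _).trans hn))
  · filter_upwards [hnice] with ω hω
    exact pc_bcf h3 hω _ v (v + j) (v + j') b b' t

lemma lims_eq {E : ℕ → ℕ → ℝ} {I I' : ℕ → ℝ} {L L' : ℝ} {n0 n1 : ℕ}
    (h : ∀ n, n0 ≤ n → 0 < n → Tendsto (E n) atTop (𝓝 (I n)))
    (h' : ∀ n, n1 ≤ n → 0 < n → Tendsto (E n) atTop (𝓝 (I' n)))
    (hL : Tendsto I atTop (𝓝 L)) (hL' : Tendsto I' atTop (𝓝 L')) : L = L' := by
  refine tendsto_nhds_unique hL (hL'.congr' ?_)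
  filter_upwards [eventually_ge_atTop n0, eventually_ge_atTop n1, eventually_gt_atTop 0]
    with n hn hn' hn2
  exact tendsto_nhds_unique (h' n hn' hn2) (h n hn hn2)

lemma exists_pos (h4b : StmtT4b) (hd : 0 < d) : ∃ y : (n k : ℕ) → (Fin d → Fin (2 * n * k)) → Sp d,
    ∀ n k, 0 < n → 0 < k → Gen (y n k) ∧ ∀ s, y n k s ∈ cell n k s := by
  classical
  have h : ∀ n k : ℕ, ∃ y : (Fin d → Fin (2 * n * k)) → Sp d, 0 < n → 0 < k →
      Gen y ∧ ∀ s, y s ∈ cell n k s := by
    intro n k
    by_cases hn : 0 < n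
    · by_cases hk : 0 < k
      · obtain ⟨y, hy⟩ := (h4b d hd n k hn hk).1
        exact ⟨y, fun _ _ => hy⟩
      · exact ⟨fun _ => 0, fun _ h => absurd h hk⟩
    · exact ⟨fun _ => 0, fun h => absurd h hn⟩
  choose y hy using h
  exact ⟨y, hy⟩

/-- there is a probability `> 0` that the cube `0` contains an unmatched red point -/
lemma uc_pos (h2 : StmtT2) (h3 : StmtT3) (h4b : StmtT4b) (hd : 0 < d) (hp : 0 < p) (hp1 : p < 1)
    (hX : IsColouredPoisson P p X c) (t : ℕ)
    (hint : Integrable (fun ω => uc (fun i => X i ω) (full (fun i => c i ω)) true 0 t) P) :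
    0 < ∫ ω, uc (fun i => X i ω) (full (fun i => c i ω)) true 0 t ∂P := by
  classical
  have hnice := h2 d p hp hp1 Ω P X c hd hX
  set A0 : Set (Sp d) := {y | cb y = 0} with hA0
  set A1 : Set (Sp d) := {y | cb y ≠ 0 ∧ ∀ i, |y i| ≤ (t : ℝ) + 2} with hA1
  have hm0 : MeasurableSet A0 := cube_meas 0
  have hm1 : MeasurableSet A1 := by
    have h : A1 = {y : Sp d | cb y = 0}ᶜ ∩ ⋂ i, {y : Sp d | |y i| ≤ (t : ℝ) + 2} := by
      ext y
      simp only [hA1, Set.mem_inter_iff, Set.mem_iInter]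
      rfl
    rw [h]
    refine hm0.compl.inter (MeasurableSet.iInter fun i => ?_)
    have h4 : Measurable (fun y : Sp d => |y i|) := by
      have := coord_measurable (d := d) i
      fun_prop
    exact h4 measurableSet_Iic
  have hv0 : volume A0 ≠ ⊤ := cube_vol 0
  have hv1 : volume A1 ≠ ⊤ := by
    refine ne_top_of_le_ne_top (measure_closedBall_lt_top (x := (0 : Sp d))
      (r := Real.sqrt (∑ _i : Fin d, ((t : ℝ) + 2) ^ 2))).ne (measure_mono fun y hy => ?_)
    rw [mem_closedBall_zero_iff]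
    exact norm_le_of_abs_le y (fun _ => (t : ℝ) + 2) hy.2
  have hpos0 : 0 < (volume A0).toReal := by
    obtain ⟨-, hcell, -⟩ := h4b d hd 1 1 one_pos one_pos
    have h5 := (hcell (fun _ => ⟨1, by norm_num⟩)).2
    have h6 : A0 = cell 1 1 (fun _ : Fin d => (⟨1, by norm_num⟩ : Fin (2 * 1 * 1))) := by
      ext y
      simp only [hA0, cell]
      constructor
      · intro h i
        have h7 : ⌊y i⌋ = 0 := congrFun h i
        simpa using h7
      · intro h
        funext i
        have h7 := h i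
        change ⌊y i⌋ = 0
        simpa using h7
    rw [h6, h5]
    simp
  have hdisj : Disjoint A0 A1 := by
    rw [Set.disjoint_left]
    intro y h7 h8
    exact h8.1 h7
  have hcounts := hX.counts 2 ![A0, A1] ![1, 0] (by
    intro i; fin_cases i
    · exact hm0
    · exact hm1) (by
    intro i; fin_cases i
    · exact hv0
    · exact hv1) (by
    intro i j hij
    fin_cases i <;> fin_cases j
    · exact absurd rfl hij
    · exact hdisj
    · exact hdisj.symm
    · exact absurd rfl hij)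
  simp only [Fin.forall_fin_two, Fin.prod_univ_two, Matrix.cons_val_zero, Matrix.cons_val_one] at hcounts
  set Ev : Set Ω := {ω | NN (fun n => X n ω) A0 = 1 ∧ NN (fun n => X n ω) A1 = 0} with hEv
  have hEvpos : 0 < P Ev := by
    have h9 : P Ev = ENNReal.ofReal (poi (volume A0).toReal 1 * poi (volume A1).toReal 0) := by
      rw [← hcounts]
      rfl
    rw [h9, ENNReal.ofReal_pos]
    unfold poi
    positivity
  -- an index
  obtain ⟨n, hn⟩ : ∃ n, 0 < P {ω | X n ω ∈ A0 ∧ ω ∈ Ev} := by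
    by_contra hcon
    push Not at hcon
    have h10 : P (⋃ n, {ω | X n ω ∈ A0 ∧ ω ∈ Ev}) = 0 :=
      measure_iUnion_null fun n => le_antisymm (hcon n) zero_le
    have h11 : Ev ⊆ ⋃ n, {ω | X n ω ∈ A0 ∧ ω ∈ Ev} := by
      intro ω hω
      have h12 : Set.encard {n | X n ω ∈ A0} = 1 := hω.1
      obtain ⟨n, hn⟩ := Set.encard_eq_one.1 h12
      refine Set.mem_iUnion.2 ⟨n, ?_, hω⟩
      have : n ∈ {n | X n ω ∈ A0} := by rw [hn]; rfl
      exact this
    exact absurd (measure_mono_null h11 h10) hEvpos.ne'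
  have hB : MeasurableSet {x : ℕ → Sp d | x n ∈ A0 ∧ NN x A0 = ((1 : ℕ) : ℕ∞) ∧
      NN x A1 = ((0 : ℕ) : ℕ∞)} := by
    have hmp : ∀ n, Measurable (fun x : ℕ → Sp d => x n) := fun n => measurable_pi_apply n
    exact ((hmp n) hm0).inter ((NN_set_measurable hmp hm0 1).inter
      (NN_set_measurable hmp hm1 0))
  have hcol := hX.colours {n} (fun _ => true) _ hB
  have hpos : 0 < P {ω | (fun n => X n ω) ∈ {x : ℕ → Sp d | x n ∈ A0 ∧ NN x A0 = ((1 : ℕ) : ℕ∞) ∧
      NN x A1 = ((0 : ℕ) : ℕ∞)} ∧ ∀ m ∈ ({n} : Finset ℕ), c m ω = true} := by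
    rw [hcol]
    simp only [Finset.prod_singleton, if_true]
    refine ENNReal.mul_pos ?_ ?_
    · refine ne_of_gt (lt_of_lt_of_le hn (measure_mono ?_))
      rintro ω ⟨h13, h14, h15⟩
      exact ⟨h13, by exact_mod_cast h14, by exact_mod_cast h15⟩
    · rw [Ne, ENNReal.ofReal_eq_zero, not_le]
      exact hp
  rw [integral_pos_iff_support_of_nonneg_ae (Eventually.of_forall fun ω => uc_nonneg _ _ _ _ _)
    hint]
  refine lt_of_lt_of_le hpos (measure_mono_ae ?_)
  filter_upwards [hnice] with ω hω hmem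
  obtain ⟨⟨h13, h14, h15⟩, h16⟩ := hmem
  have hcn : c n ω = true := h16 n (Finset.mem_singleton_self n)
  obtain ⟨M, hM⟩ := Set.encard_eq_one.1 (show Set.encard {k | X k ω ∈ A0} = 1 by exact_mod_cast h14)
  have hnn : M = n := by
    have : n ∈ {k | X k ω ∈ A0} := h13
    rw [hM] at this
    exact (Set.mem_singleton_iff.1 this).symm
  have hempty : {k | X k ω ∈ A1} = ∅ :=
    Set.encard_eq_zero.1 (show Set.encard {k | X k ω ∈ A1} = 0 by exact_mod_cast h15)
  change uc (fun i => X i ω) (full (fun i => c i ω)) true 0 t ≠ 0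
  unfold uc
  have hker := ((h3 d _ hω).1 (full (fun i => c i ω))).2
  have hmem2 : n ∈ {s | cb (X s ω) = 0 ∧ full (fun i => c i ω) s = some true ∧
      Un (fun i => X i ω) (full (fun i => c i ω)) t s} := by
    refine ⟨h13, by simp [full, hcn], by simp [full], ?_⟩
    rintro ⟨k, hk, hkt⟩
    have hne := (hker.ok hk).1
    change dist (X n ω) (X k ω) < t at hkt
    by_cases hck : cb (X k ω) = 0
    · have : k ∈ {k | X k ω ∈ A0} := hck
      rw [hM, hnn] at this
      exact hne (Set.mem_singleton_iff.1 this).symm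
    · have hk1 : k ∈ {k | X k ω ∈ A1} := by
        refine ⟨hck, fun i => ?_⟩
        have h17 := cube_abs (show cb (X n ω) = 0 from h13) i
        simp only [Pi.zero_apply, Int.cast_zero, abs_zero, zero_add] at h17
        have h18 : |(X k ω - X n ω) i| ≤ ‖X k ω - X n ω‖ := by
          have := PiLp.norm_apply_le (X k ω - X n ω) i
          rwa [Real.norm_eq_abs] at this
        rw [dist_comm, dist_eq_norm] at hkt
        have h19 : X k ω i = (X k ω - X n ω) i + X n ω i := by
          change X k ω i = (X k ω i - X n ω i) + X n ω i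
          ring
        rw [h19]
        refine (abs_add_le _ _).trans ?_
        linarith
      rw [hempty] at hk1
      exact hk1
  have hfin : {s | cb (X s ω) = 0 ∧ full (fun i => c i ω) s = some true ∧
      Un (fun i => X i ω) (full (fun i => c i ω)) t s}.Finite :=
    (nice_finite hω 0).subset fun s hs => hs.1
  have hne : {s | cb (X s ω) = 0 ∧ full (fun i => c i ω) s = some true ∧
      Un (fun i => X i ω) (full (fun i => c i ω)) t s}.ncard ≠ 0 := by
    rw [Ne, Set.ncard_eq_zero hfin]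
    exact Set.nonempty_iff_ne_empty.1 ⟨n, hmem2⟩
  exact_mod_cast hne

theorem stmtT5 (h1 : StmtT1) (h2 : StmtT2) (h3 : StmtT3) (h4a : StmtT4a) (h4b : StmtT4b) :
    StmtT5 := by
  intro d p hd hp hp1 Ω _ P _ X c hX hall
  have hnice := h2 d p hp hp1 Ω P X c hd hX
  obtain ⟨y0, hy0⟩ := exists_pos h4b hd
  set U : Bool → (Fin d → ℤ) → ℕ → ℝ := fun b j t =>
    ∫ ω, uc (fun i => X i ω) (full (fun i => c i ω)) b j t ∂P with hU
  set V : (Fin d → ℤ) → (Fin d → ℤ) → ℕ → ℝ := fun j j' t =>
    ∫ ω, pc (fun i => X i ω) (full (fun i => c i ω)) false true j j' t ∂P with hV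
  have hUint : ∀ b j (t : ℕ), Integrable
      (fun ω => uc (fun i => X i ω) (full (fun i => c i ω)) b j t) P := by
    intro b j t
    obtain ⟨n0, -, h, -⟩ := main_uc h1 h2 h3 h4a h4b hd hp hp1 hX y0 hy0 b 0 j t
    rwa [zero_add] at h
  have hVint : ∀ j j' (t : ℕ), Integrable
      (fun ω => pc (fun i => X i ω) (full (fun i => c i ω)) false true j j' t) P := by
    intro j j' t
    obtain ⟨n0, -, h, -⟩ := main_pc h1 h2 h3 h4a h4b hd hp hp1 hX y0 hy0 false true 0 j j' t
    rwa [zero_add, zero_add] at h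
  have hUtr : ∀ b v j (t : ℕ), U b (v + j) t = U b j t := by
    intro b v j t
    obtain ⟨n0, h5, -, h6⟩ := main_uc h1 h2 h3 h4a h4b hd hp hp1 hX y0 hy0 b v j t
    obtain ⟨n1, h7, -, h8⟩ := main_uc h1 h2 h3 h4a h4b hd hp hp1 hX y0 hy0 b 0 j t
    have h9 := lims_eq h5 h7 h6 h8
    rw [zero_add] at h9
    exact h9
  have hVtr : ∀ v j j' (t : ℕ), V (v + j) (v + j') t = V j j' t := by
    intro v j j' t
    obtain ⟨n0, h5, -, h6⟩ := main_pc h1 h2 h3 h4a h4b hd hp hp1 hX y0 hy0 false true v j j' t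
    obtain ⟨n1, h7, -, h8⟩ := main_pc h1 h2 h3 h4a h4b hd hp hp1 hX y0 hy0 false true 0 j j' t
    have h9 := lims_eq h5 h7 h6 h8
    rw [zero_add, zero_add] at h9
    exact h9
  refine ⟨fun t => U true 0 t, fun t => U false 0 t, ?_, ?_, ?_⟩
  · intro t
    exact uc_pos h2 h3 h4b hd hp hp1 hX t (hUint true 0 t)
  · intro t
    -- mass transport
    have hker : ∀ᵐ ω ∂P, IsKer (fun i => X i ω) (full (fun i => c i ω))
        (mt (fun i => X i ω) (full (fun i => c i ω))) := by
      filter_upwards [hnice] with ω hω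
      exact ((h3 d _ hω).1 _).2
    have hmatched : ∀ᵐ ω ∂P, ∀ i, ∃ k, mt (fun i => X i ω) (full (fun i => c i ω)) i k := by
      filter_upwards [hnice, hall] with ω hω hω2 i
      obtain ⟨⟨m, hm, -⟩, h5⟩ := (h3 d _ hω).2.2 (fun i => c i ω)
      exact ⟨m i, (h5 m hm i (m i) (hω2 m hm i).symm).1 rfl⟩
    have hstep : ∀ T : ℕ, U false 0 t ≤ U true 0 t + U false 0 T := by
      intro T
      set J : Finset (Fin d → ℤ) := Fintype.piFinset fun _ => Finset.Icc (-((T : ℤ) + 1)) (T + 1)
        with hJ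
      have hJmem : ∀ j' : Fin d → ℤ, (∀ a, |j' a| ≤ (T : ℤ) + 1) → j' ∈ J := by
        intro j' hj'
        rw [hJ, Fintype.mem_piFinset]
        intro a
        rw [Finset.mem_Icc]
        exact abs_le.1 (hj' a)
      have c1 : U false 0 t + ∑ j' ∈ J, V 0 j' t ≤ ∑ j' ∈ J, V 0 j' T + U false 0 T := by
        have h5 : ∫ ω, (uc (fun i => X i ω) (full (fun i => c i ω)) false 0 t +
            ∑ j' ∈ J, pc (fun i => X i ω) (full (fun i => c i ω)) false true 0 j' t) ∂P ≤
            ∫ ω, (∑ j' ∈ J, pc (fun i => X i ω) (full (fun i => c i ω)) false true 0 j' T +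
              uc (fun i => X i ω) (full (fun i => c i ω)) false 0 T) ∂P := by
          refine integral_mono_ae ((hUint _ _ _).add (integrable_finsetSum _ fun j' _ =>
            hVint _ _ _)) ((integrable_finsetSum _ fun j' _ => hVint _ _ _).add (hUint _ _ _)) ?_
          filter_upwards [hnice, hker] with ω hω hk
          exact claim1 hω hk J t T hJmem
        rw [integral_add (hUint _ _ _) (integrable_finsetSum _ fun j' _ => hVint _ _ _),
          integral_add (integrable_finsetSum _ fun j' _ => hVint _ _ _) (hUint _ _ _),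
          integral_finsetSum _ (fun j' _ => hVint _ _ _),
          integral_finsetSum _ (fun j' _ => hVint _ _ _)] at h5
        exact h5
      have c2 : ∑ j' ∈ J, V (-j') 0 T ≤ ∑ j' ∈ J, V (-j') 0 t + U true 0 t := by
        have h5 : ∫ ω, (∑ j' ∈ J, pc (fun i => X i ω) (full (fun i => c i ω)) false true (-j') 0 T)
            ∂P ≤ ∫ ω, (∑ j' ∈ J, pc (fun i => X i ω) (full (fun i => c i ω)) false true (-j') 0 t +
              uc (fun i => X i ω) (full (fun i => c i ω)) true 0 t) ∂P := by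
          refine integral_mono_ae (integrable_finsetSum _ fun j' _ => hVint _ _ _)
            ((integrable_finsetSum _ fun j' _ => hVint _ _ _).add (hUint _ _ _)) ?_
          filter_upwards [hnice, hker] with ω hω hk
          exact claim2 hω hk J t T
        rw [integral_add (integrable_finsetSum _ fun j' _ => hVint _ _ _) (hUint _ _ _),
          integral_finsetSum _ (fun j' _ => hVint _ _ _),
          integral_finsetSum _ (fun j' _ => hVint _ _ _)] at h5
        exact h5
      have htr : ∀ s : ℕ, ∑ j' ∈ J, V 0 j' s = ∑ j' ∈ J, V (-j') 0 s := by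
        intro s
        refine Finset.sum_congr rfl fun j' _ => ?_
        have h6 := hVtr (-j') 0 j' s
        rw [add_zero, neg_add_cancel] at h6
        exact h6.symm
      rw [htr, htr] at c1
      linarith
    have hlim : Tendsto (fun T : ℕ => U true 0 t + U false 0 T) atTop (𝓝 (U true 0 t + 0)) := by
      refine tendsto_const_nhds.add ?_
      have h5 : Tendsto (fun T : ℕ => ∫ ω, uc (fun i => X i ω) (full (fun i => c i ω)) false 0 T ∂P)
          atTop (𝓝 (∫ ω, (0 : ℝ) ∂P)) := by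
        refine tendsto_integral_of_dominated_convergence
          (fun ω => (({i | cb (X i ω) = 0}.ncard : ℕ) : ℝ))
          (fun T => (hUint false 0 T).aestronglyMeasurable)
          (count_integrable h2 hd hp hp1 hX 0) ?_ ?_
        · intro T
          filter_upwards [hnice] with ω hω
          rw [Real.norm_eq_abs, abs_of_nonneg (uc_nonneg _ _ _ _ _)]
          unfold uc
          have h6 : {s | cb (X s ω) = 0 ∧ full (fun i => c i ω) s = some false ∧
              Un (fun i => X i ω) (full (fun i => c i ω)) T s}.ncard ≤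
              {i | cb (X i ω) = 0}.ncard :=
            Set.ncard_le_ncard (fun s hs => hs.1) (nice_finite hω 0)
          exact_mod_cast h6
        · filter_upwards [hnice, hmatched] with ω hω hm
          refine tendsto_const_nhds.congr' ?_
          filter_upwards [uc_zero hω hm false 0] with T hT
          exact hT.symm
      rw [integral_zero] at h5
      exact h5
    have h7 := ge_of_tendsto' hlim hstep
    rwa [add_zero] at h7
  · intro y hy j t ε hε
    have key : ∀ b : Bool, ∃ N : ℕ, ∀ n, N ≤ n → ∃ K : ℕ, ∀ k, K ≤ k →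
        |ex ((1 / k : ℝ) ^ d * Real.exp (-(1 / k : ℝ) ^ d)) p
          (fun ω => uc (y n k) ω b j t) - U b 0 t| < ε := by
      intro b
      obtain ⟨n0, h5, -, h6⟩ := main_uc h1 h2 h3 h4a h4b hd hp hp1 hX y hy b 0 j t
      have h7 : U b (0 + j) t = U b 0 t := by
        have h8 := hUtr b j 0 t
        rw [add_zero] at h8
        rw [zero_add]
        exact h8
      have h9 : ∀ᶠ n : ℕ in atTop, |(∫ ω, uc (fun i => X i ω)
          (bcf (fun i => X i ω) (fun i => c i ω) 0 n) b (0 + j) t ∂P) - U b 0 t| < ε / 2 := by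
        rw [← h7]
        have h10 := (Metric.tendsto_atTop.1 h6) (ε / 2) (by positivity)
        obtain ⟨N, hN⟩ := h10
        filter_upwards [eventually_ge_atTop N] with n hn
        have := hN n hn
        rwa [Real.dist_eq] at this
      obtain ⟨N, hN⟩ := eventually_atTop.1 h9
      refine ⟨max N (max n0 1), fun n hn => ?_⟩
      have hn1 : N ≤ n := (le_max_left _ _).trans hn
      have hn2 : n0 ≤ n := ((le_max_left _ _).trans (le_max_right _ _)).trans hn
      have hn3 : 0 < n := ((le_max_right _ _).trans (le_max_right _ _)).trans hn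
      obtain ⟨K, hK⟩ := (Metric.tendsto_atTop.1 (h5 n hn2 hn3)) (ε / 2) (by positivity)
      refine ⟨K, fun k hk => ?_⟩
      have h11 := hK k hk
      rw [Real.dist_eq] at h11
      have h12 := hN n hn1
      calc |ex ((1 / k : ℝ) ^ d * Real.exp (-(1 / k : ℝ) ^ d)) p
            (fun ω => uc (y n k) ω b j t) - U b 0 t|
          ≤ |ex ((1 / k : ℝ) ^ d * Real.exp (-(1 / k : ℝ) ^ d)) p
            (fun ω => uc (y n k) ω b j t) - ∫ ω, uc (fun i => X i ω)
              (bcf (fun i => X i ω) (fun i => c i ω) 0 n) b (0 + j) t ∂P| +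
            |(∫ ω, uc (fun i => X i ω)
              (bcf (fun i => X i ω) (fun i => c i ω) 0 n) b (0 + j) t ∂P) - U b 0 t| :=
            abs_sub_le _ _ _
        _ < ε / 2 + ε / 2 := add_lt_add h11 h12
        _ = ε := by ring
    obtain ⟨N1, hN1⟩ := key true
    obtain ⟨N2, hN2⟩ := key false
    refine ⟨max N1 N2, fun n hn => ?_⟩
    obtain ⟨K1, hK1⟩ := hN1 n ((le_max_left _ _).trans hn)
    obtain ⟨K2, hK2⟩ := hN2 n ((le_max_right _ _).trans hn)
    exact ⟨max K1 K2, fun k hk => ⟨hK1 k ((le_max_left _ _).trans hk),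
      hK2 k ((le_max_right _ _).trans hk)⟩⟩

end Pool.Agent.Lib_helper33.ASM
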