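import Pool.Agent.Lib_helper33.ASM.TStmts

/-!
# T5, part a: expectations of functionals of the discretised configuration; number of points in a
unit cube
-/

set_option autoImplicit false
set_option linter.unusedSectionVars false
set_option linter.style.haveILetI false

open scoped BigOperators ENNReal
open MeasureTheory Filter Topology

namespace Pool.Agent.Lib_helper33.ASM

section weights

lemma wt_nonneg' {a p : ℝ} (ha : 0 ≤ a) (ha1 : a ≤ 1) (hp : 0 ≤ p) (hp1 : p ≤ 1)
    (o : Option Bool) : 0 ≤ wt a p o := by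
  rcases o with _ | _ | _
  · simp only [wt]; linarith
  · simp only [wt]; exact mul_nonneg ha (by linarith)
  · simp only [wt]; exact mul_nonneg ha hp

lemma pw_nonneg' {ι : Type*} [Fintype ι] {a p : ℝ} (ha : 0 ≤ a) (ha1 : a ≤ 1)
    (hp : 0 ≤ p) (hp1 : p ≤ 1) (ω : Cfg ι) : 0 ≤ pw a p ω :=
  Finset.prod_nonneg fun _ _ => wt_nonneg' ha ha1 hp hp1 _

lemma mul_exp_neg_le_one {m : ℝ} : m * Real.exp (-m) ≤ 1 := by
  have h1 : m ≤ Real.exp m := by
    have := Real.add_one_le_exp m
    linarith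
  have h2 : m * Real.exp (-m) ≤ Real.exp m * Real.exp (-m) :=
    mul_le_mul_of_nonneg_right h1 (Real.exp_pos _).le
  rwa [← Real.exp_add, add_neg_cancel, Real.exp_zero] at h2

end weights

variable {d : ℕ} {p : ℝ} {Ω : Type} [MeasurableSpace Ω] {P : Measure Ω} [IsProbabilityMeasure P]
  {X : ℕ → Ω → Sp d} {c : ℕ → Ω → Bool}

lemma dcf_law (h1 : StmtT1) (h4b : StmtT4b) (hd : 0 < d) (hp : 0 < p) (hp1 : p < 1)
    (hX : IsColouredPoisson P p X c) {n k : ℕ} (hn : 0 < n) (hk : 0 < k) (v : Fin d → ℤ)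
    (F : Cfg (Fin d → Fin (2 * n * k)) → ℝ) :
    Measurable (fun ω => F (dcf (fun i => X i ω) (fun i => c i ω) v n k)) ∧
    ∫ ω, F (dcf (fun i => X i ω) (fun i => c i ω) v n k) ∂P =
      ex ((1 / k : ℝ) ^ d * Real.exp (-(1 / k : ℝ) ^ d)) p F := by
  obtain ⟨-, hcell, hdisj, -, -, -⟩ := h4b d hd n k hn hk
  have hm : 0 < (1 / k : ℝ) ^ d := by positivity
  have hmeas : ∀ s : Fin d → Fin (2 * n * k), MeasurableSet {y : Sp d | y - iv v ∈ cell n k s} := by
    intro s
    have h := (hcell s).1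
    exact (measurable_id.sub_const (iv v)) h
  have hvol : ∀ s : Fin d → Fin (2 * n * k),
      volume {y : Sp d | y - iv v ∈ cell n k s} = ENNReal.ofReal ((1 / k : ℝ) ^ d) := by
    intro s
    rw [← (hcell s).2]
    have h := measure_preimage_add_right (volume : Measure (Sp d)) (-iv v) (cell n k s)
    rw [← h]
    congr 1
  obtain ⟨hT1, hT2⟩ := h1 d p hp hp1 Ω P X c hX (Fin d → Fin (2 * n * k))
    (fun s => {y : Sp d | y - iv v ∈ cell n k s}) ((1 / k : ℝ) ^ d) hm hmeas hvol
    (fun s s' hss => (hdisj s s' hss).preimage (fun y => y - iv v))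
  have hset : ∀ η : Cfg (Fin d → Fin (2 * n * k)),
      (fun ω => dcf (fun i => X i ω) (fun i => c i ω) v n k) ⁻¹' {η} =
      {ω | ∀ s, st (fun n => X n ω) (fun n => c n ω) {y : Sp d | y - iv v ∈ cell n k s} = η s} := by
    intro η
    ext ω
    simp only [Set.mem_preimage, Set.mem_singleton_iff, Set.mem_ofPred_eq]
    unfold dcf
    exact funext_iff
  letI : MeasurableSpace (Cfg (Fin d → Fin (2 * n * k))) := ⊤
  haveI : MeasurableSingletonClass (Cfg (Fin d → Fin (2 * n * k))) := ⟨fun _ => trivial⟩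
  have hYm : Measurable (fun ω => dcf (fun i => X i ω) (fun i => c i ω) v n k) := by
    refine measurable_to_countable' fun η => ?_
    rw [hset η, Set.ofPred_forall]
    exact MeasurableSet.iInter fun s => hT1 s (η s)
  refine ⟨(measurable_from_top (f := F)).comp hYm, ?_⟩
  have hint : ∫ ω, F (dcf (fun i => X i ω) (fun i => c i ω) v n k) ∂P
      = ∫ η, F η ∂(P.map (fun ω => dcf (fun i => X i ω) (fun i => c i ω) v n k)) := by
    rw [integral_map hYm.aemeasurable (measurable_from_top (f := F)).aestronglyMeasurable]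
  haveI : IsProbabilityMeasure (P.map (fun ω => dcf (fun i => X i ω) (fun i => c i ω) v n k)) :=
    Measure.isProbabilityMeasure_map hYm.aemeasurable
  rw [hint, integral_fintype (Integrable.of_finite)]
  unfold ex
  refine Finset.sum_congr rfl fun η _ => ?_
  rw [smul_eq_mul]
  congr 1
  rw [Measure.real, Measure.map_apply hYm (measurableSet_singleton η), hset η, hT2 η,
    ENNReal.toReal_ofReal]
  exact pw_nonneg' (by positivity) mul_exp_neg_le_one hp.le hp1.le η

lemma norm_le_of_abs_le (y : Sp d) (b : Fin d → ℝ) (h : ∀ i, |y i| ≤ b i) :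
    ‖y‖ ≤ Real.sqrt (∑ i, b i ^ 2) := by
  rw [EuclideanSpace.norm_eq]
  refine Real.sqrt_le_sqrt (Finset.sum_le_sum fun i _ => ?_)
  rw [Real.norm_eq_abs]
  exact pow_le_pow_left₀ (abs_nonneg _) (h i) 2

lemma cube_abs {y : Sp d} {j : Fin d → ℤ} (h : cb y = j) (i : Fin d) : |y i| ≤ |(j i : ℝ)| + 1 := by
  have h1 : ⌊y i⌋ = j i := congrFun h i
  have h2 := Int.floor_le (y i)
  have h3 := Int.lt_floor_add_one (y i)
  rw [h1] at h2 h3
  rw [abs_le]
  have h4 := neg_abs_le (j i : ℝ)
  have h5 := le_abs_self (j i : ℝ)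
  constructor <;> linarith

lemma cube_norm (j : Fin d → ℤ) : ∃ C : ℝ, ∀ y : Sp d, cb y = j → ‖y‖ ≤ C :=
  ⟨_, fun y hy => norm_le_of_abs_le y (fun i => |(j i : ℝ)| + 1) (cube_abs hy)⟩

lemma coord_measurable (i : Fin d) : Measurable (fun y : Sp d => y i) := by
  fun_prop

lemma cube_meas (j : Fin d → ℤ) : MeasurableSet {y : Sp d | cb y = j} := by
  have : {y : Sp d | cb y = j} = ⋂ i, {y : Sp d | ⌊y i⌋ = j i} := by
    ext y
    simp only [Set.mem_iInter]
    exact funext_iff
  rw [this]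
  refine MeasurableSet.iInter fun i => ?_
  exact (Int.measurable_floor.comp (coord_measurable i)) (measurableSet_singleton (j i))

lemma cube_vol (j : Fin d → ℤ) : volume {y : Sp d | cb y = j} ≠ ⊤ := by
  obtain ⟨C, hC⟩ := cube_norm (d := d) j
  refine ne_top_of_le_ne_top (measure_closedBall_lt_top (x := (0 : Sp d)) (r := C)).ne
    (measure_mono fun y hy => ?_)
  rw [mem_closedBall_zero_iff]
  exact hC y hy

lemma NN_eq_tsum (x : ℕ → Sp d) (A : Set (Sp d)) :
    ((NN x A : ℕ∞) : ℝ≥0∞) = ∑' n, A.indicator (fun _ => (1 : ℝ≥0∞)) (x n) := by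
  unfold NN
  rw [← ENNReal.tsum_set_one, tsum_subtype (s := {n | x n ∈ A}) (f := fun _ => (1 : ℝ≥0∞))]
  rfl

lemma NN_measurable (hX : ∀ n, Measurable (X n)) {A : Set (Sp d)} (hA : MeasurableSet A) :
    Measurable (fun ω => ((NN (fun n => X n ω) A : ℕ∞) : ℝ≥0∞)) := by
  simp_rw [NN_eq_tsum]
  refine Measurable.tsum fun n => ?_
  exact (measurable_const.indicator hA).comp (hX n)

lemma NN_set_measurable (hX : ∀ n, Measurable (X n)) {A : Set (Sp d)} (hA : MeasurableSet A)
    (k : ℕ) : MeasurableSet {ω | NN (fun n => X n ω) A = k} := by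
  have h := NN_measurable hX hA (measurableSet_singleton ((k : ℕ) : ℝ≥0∞))
  convert h using 1
  ext ω
  simp only [Set.mem_preimage, Set.mem_singleton_iff]
  constructor
  · intro h1
    change NN (fun n => X n ω) A = k at h1
    rw [h1]
    simp
  · intro h1
    change NN (fun n => X n ω) A = k
    have h2 : (((k : ℕ∞)) : ℝ≥0∞) = ((k : ℕ) : ℝ≥0∞) := by simp
    rw [← h2] at h1
    exact ENat.toENNReal_inj.1 h1

lemma poi_moment_summable (v : ℝ) (hv : 0 ≤ v) : Summable fun k : ℕ => (k : ℝ) * poi v k := by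
  refine Summable.of_nonneg_of_le (fun k => ?_) (fun k => ?_)
    (Real.summable_pow_div_factorial (2 * v))
  · unfold poi
    positivity
  · unfold poi
    have h1 : (k : ℝ) ≤ 2 ^ k := by exact_mod_cast (Nat.lt_two_pow_self (n := k)).le
    have h2 : Real.exp (-v) ≤ 1 := by
      rw [Real.exp_le_one_iff]
      linarith
    have h3 : (0 : ℝ) ≤ v ^ k / k.factorial := by positivity
    calc (k : ℝ) * (Real.exp (-v) * v ^ k / k.factorial)
        = ((k : ℝ) * Real.exp (-v)) * (v ^ k / k.factorial) := by ring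
      _ ≤ (2 ^ k * 1) * (v ^ k / k.factorial) := by
          refine mul_le_mul_of_nonneg_right ?_ h3
          exact mul_le_mul h1 h2 (Real.exp_pos _).le (by positivity)
      _ = (2 * v) ^ k / k.factorial := by rw [mul_pow]; ring

lemma counts_one (hX : IsColouredPoisson P p X c) {A : Set (Sp d)} (hA : MeasurableSet A)
    (hv : volume A ≠ ⊤) (k : ℕ) :
    P {ω | NN (fun n => X n ω) A = k} = ENNReal.ofReal (poi (volume A).toReal k) := by
  have h := hX.counts 1 (fun _ => A) (fun _ => k) (fun _ => hA) (fun _ => hv)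
    (fun i j hij => absurd (Subsingleton.elim i j) hij)
  simpa using h

lemma lintegral_NN_ne_top (hX : IsColouredPoisson P p X c) {A : Set (Sp d)}
    (hA : MeasurableSet A) (hv : volume A ≠ ⊤)
    (hfin : ∀ᵐ ω ∂P, NN (fun n => X n ω) A ≠ ⊤) :
    ∫⁻ ω, ((NN (fun n => X n ω) A : ℕ∞) : ℝ≥0∞) ∂P ≠ ⊤ := by
  have h1 : ∫⁻ ω, ((NN (fun n => X n ω) A : ℕ∞) : ℝ≥0∞) ∂P =
      ∫⁻ ω, ∑' k : ℕ, {ω | NN (fun n => X n ω) A = k}.indicator (fun _ => (k : ℝ≥0∞)) ω ∂P := by
    refine lintegral_congr_ae ?_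
    filter_upwards [hfin] with ω hω
    obtain ⟨m, hm⟩ := ENat.ne_top_iff_exists.1 hω
    rw [tsum_eq_single m]
    · rw [Set.indicator_of_mem (by exact hm.symm), ← hm]
      simp
    · intro k hk
      rw [Set.indicator_of_notMem]
      intro h2
      change NN (fun n => X n ω) A = k at h2
      rw [← hm] at h2
      exact hk (by exact_mod_cast h2.symm)
  rw [h1, lintegral_tsum]
  · have h2 : ∀ k : ℕ, ∫⁻ ω, {ω | NN (fun n => X n ω) A = k}.indicator (fun _ => (k : ℝ≥0∞)) ω ∂P
        = ENNReal.ofReal ((k : ℝ) * poi (volume A).toReal k) := by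
      intro k
      rw [lintegral_indicator_const (NN_set_measurable hX.meas_X hA k), counts_one hX hA hv k,
        ENNReal.ofReal_mul (by positivity), ENNReal.ofReal_natCast]
    simp_rw [h2]
    exact (poi_moment_summable _ ENNReal.toReal_nonneg).tsum_ofReal_ne_top
  · intro k
    exact (measurable_const.indicator (NN_set_measurable hX.meas_X hA k)).aemeasurable

lemma nice_finite {x : ℕ → Sp d} (hx : Nice x) (j : Fin d → ℤ) : {i | cb (x i) = j}.Finite := by
  obtain ⟨C, hC⟩ := cube_norm (d := d) j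
  exact (hx.lf C).subset fun i hi => hC (x i) hi

lemma count_integrable (h2 : StmtT2) (hd : 0 < d) (hp : 0 < p) (hp1 : p < 1)
    (hX : IsColouredPoisson P p X c) (j : Fin d → ℤ) :
    Integrable (fun ω => (({i | cb (X i ω) = j}.ncard : ℕ) : ℝ)) P := by
  have hnice := h2 d p hp hp1 Ω P X c hd hX
  have hfin : ∀ᵐ ω ∂P, NN (fun n => X n ω) {y : Sp d | cb y = j} ≠ ⊤ := by
    filter_upwards [hnice] with ω hω
    have h3 := nice_finite hω j
    exact Set.encard_ne_top_iff.2 h3
  have h3 := integrable_toReal_of_lintegral_ne_top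
    (NN_measurable hX.meas_X (cube_meas j)).aemeasurable
    (lintegral_NN_ne_top hX (cube_meas j) (cube_vol j) hfin)
  refine h3.congr (Eventually.of_forall fun ω => ?_)
  change (((NN (fun n => X n ω) {y : Sp d | cb y = j} : ℕ∞)) : ℝ≥0∞).toReal =
    ((Set.encard {i | cb (X i ω) = j}).toNat : ℝ)
  unfold NN
  rcases eq_or_ne (Set.encard {i | cb (X i ω) = j}) ⊤ with h | h
  · have h' : Set.encard {n | X n ω ∈ {y : Sp d | cb y = j}} = ⊤ := h
    rw [h', h]
    simp
  · obtain ⟨m, hm⟩ := ENat.ne_top_iff_exists.1 h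
    have h' : Set.encard {n | X n ω ∈ {y : Sp d | cb y = j}} = m := hm.symm
    rw [h', ← hm]
    simp


end Pool.Agent.Lib_helper33.ASM
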