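import Pool.Agent.Lib_helper77.ASM.T5a

/-!
# T5, part b: domination of the discrete counts, passage to the limit
-/

set_option autoImplicit false
set_option linter.unusedSectionVars false
set_option linter.style.haveILetI false

open scoped BigOperators ENNReal
open MeasureTheory Filter Topology

namespace Pool.Agent.Lib_helper33.ASM

variable {d : ℕ} {p : ℝ} {Ω : Type} [MeasurableSpace Ω] {P : Measure Ω} [IsProbabilityMeasure P]
  {X : ℕ → Ω → Sp d} {c : ℕ → Ω → Bool}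

lemma cb_sub_iv (y : Sp d) (v : Fin d → ℤ) : cb (y - iv v) = cb y - v := by
  funext i
  change ⌊y i - (v i : ℝ)⌋ = ⌊y i⌋ - v i
  exact Int.floor_sub_intCast _ _

/-- the number of occupied cells in a unit cube is at most the number of points -/
lemma occ_le (h4b : StmtT4b) (hd : 0 < d) {n k : ℕ} (hn : 0 < n) (hk : 0 < k)
    {y : (Fin d → Fin (2 * n * k)) → Sp d} (hy : ∀ s, y s ∈ cell n k s) {x : ℕ → Sp d}
    (cc : ℕ → Bool) (v j : Fin d → ℤ) (hx : {i | cb (x i) = v + j}.Finite) :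
    {s | cb (y s) = j ∧ dcf x cc v n k s ≠ none}.ncard ≤ {i | cb (x i) = v + j}.ncard := by
  classical
  obtain ⟨-, -, hdisj, -, hcb, -⟩ := h4b d hd n k hn hk
  let g : (Fin d → Fin (2 * n * k)) → ℕ := fun s =>
    if h : ∃! i, x i ∈ {z : Sp d | z - iv v ∈ cell n k s} then h.choose else 0
  have hg : ∀ s, dcf x cc v n k s ≠ none → x (g s) - iv v ∈ cell n k s := by
    intro s hs
    unfold dcf st at hs
    split_ifs at hs with h
    · have h1 : x h.choose ∈ {z : Sp d | z - iv v ∈ cell n k s} := h.choose_spec.1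
      have h2 : g s = h.choose := dif_pos h
      rw [h2]
      exact h1
    · exact absurd rfl hs
  refine Set.ncard_le_ncard_of_injOn g ?_ ?_ hx
  · rintro s ⟨hs1, hs2⟩
    change cb (x (g s)) = v + j
    have h1 := hcb s _ (hg s hs2) _ (hy s)
    rw [cb_sub_iv, hs1] at h1
    rw [← h1]
    abel
  · rintro s ⟨-, hs⟩ s' ⟨-, hs'⟩ hss
    by_contra hne
    have h1 := hg s hs
    have h2 := hg s' hs'
    change g s = g s' at hss
    rw [hss] at h1
    exact Set.disjoint_left.1 (hdisj s s' hne) h1 h2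

lemma uc_nonneg {ι : Type*} (x : ι → Sp d) (ω : Cfg ι) (b : Bool) (j : Fin d → ℤ) (t : ℝ) :
    0 ≤ uc x ω b j t := by
  unfold uc
  positivity

lemma pc_nonneg {ι : Type*} (x : ι → Sp d) (ω : Cfg ι) (b b' : Bool) (j j' : Fin d → ℤ) (t : ℝ) :
    0 ≤ pc x ω b b' j j' t := by
  unfold pc
  positivity

lemma uc_le_occ {ι : Type*} [Finite ι] (y : ι → Sp d) (ω : Cfg ι) (b : Bool) (j : Fin d → ℤ)
    (t : ℝ) : uc y ω b j t ≤ ({s | cb (y s) = j ∧ ω s ≠ none}.ncard : ℝ) := by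
  unfold uc
  have h : {s | cb (y s) = j ∧ ω s = some b ∧ Un y ω t s}.ncard ≤
      {s | cb (y s) = j ∧ ω s ≠ none}.ncard := by
    refine Set.ncard_le_ncard ?_ (Set.toFinite _)
    rintro s ⟨h1, h2, -⟩
    exact ⟨h1, by rw [h2]; simp⟩
  exact_mod_cast h

lemma pc_le_occ {ι : Type*} [Finite ι] {y : ι → Sp d} (hy : Gen y) (ω : Cfg ι) (b b' : Bool)
    (j j' : Fin d → ℤ) (t : ℝ) :
    pc y ω b b' j j' t ≤ ({s | cb (y s) = j ∧ ω s ≠ none}.ncard : ℝ) := by
  unfold pc
  have h : {e : ι × ι | cb (y e.1) = j ∧ cb (y e.2) = j' ∧ ω e.1 = some b ∧ ω e.2 = some b' ∧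
      mt y ω e.1 e.2 ∧ dist (y e.1) (y e.2) < t}.ncard ≤
      {s | cb (y s) = j ∧ ω s ≠ none}.ncard := by
    refine Set.ncard_le_ncard_of_injOn Prod.fst ?_ ?_ (Set.toFinite _)
    · rintro e ⟨h1, -, h3, -⟩
      exact ⟨h1, by rw [h3]; simp⟩
    · rintro ⟨e1, e2⟩ he ⟨f1, f2⟩ hf hef
      have h1 : mt y ω e1 e2 := he.2.2.2.2.1
      have h2 : mt y ω f1 f2 := hf.2.2.2.2.1
      change e1 = f1 at hef
      subst hef
      rw [mt_unique hy h1 h2]
  exact_mod_cast h

/-- passage to the limit, first `k → ∞`, then `n → ∞` -/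
lemma lim_lemma (h1 : StmtT1) (h4b : StmtT4b) (hd : 0 < d) (hp : 0 < p) (hp1 : p < 1)
    (hX : IsColouredPoisson P p X c) {D : Ω → ℝ} (hD : Integrable D P)
    (F : (n k : ℕ) → Cfg (Fin d → Fin (2 * n * k)) → ℝ) (v : Fin d → ℤ) (g : ℕ → Ω → ℝ)
    (G : Ω → ℝ) (n0 : ℕ)
    (hF : ∀ᵐ ω ∂P, ∀ n k, 0 < n → 0 < k →
      |F n k (dcf (fun i => X i ω) (fun i => c i ω) v n k)| ≤ D ω)
    (hg : ∀ n, n0 ≤ n → 0 < n → ∀ᵐ ω ∂P, ∀ᶠ k in atTop,
      F n k (dcf (fun i => X i ω) (fun i => c i ω) v n k) = g n ω)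
    (hG : ∀ᵐ ω ∂P, ∀ᶠ n in atTop, g n ω = G ω) :
    (∀ n, n0 ≤ n → 0 < n → Integrable (g n) P ∧
      Tendsto (fun k : ℕ => ex ((1 / k : ℝ) ^ d * Real.exp (-(1 / k : ℝ) ^ d)) p (F n k)) atTop
        (𝓝 (∫ ω, g n ω ∂P))) ∧
    Integrable G P ∧ Tendsto (fun n => ∫ ω, g n ω ∂P) atTop (𝓝 (∫ ω, G ω ∂P)) := by
  have hbd : ∀ n, n0 ≤ n → 0 < n → ∀ᵐ ω ∂P, ‖g n ω‖ ≤ D ω := by
    intro n hn hn0
    filter_upwards [hF, hg n hn hn0] with ω h2 h3
    obtain ⟨k, hk, hk0⟩ := (h3.and (eventually_gt_atTop 0)).exists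
    rw [← hk]
    exact h2 n k hn0 hk0
  have hgm : ∀ n, n0 ≤ n → 0 < n → AEStronglyMeasurable (g n) P := by
    intro n hn hn0
    refine aestronglyMeasurable_of_tendsto_ae (u := atTop)
      (f := fun k ω => F n (k + 1) (dcf (fun i => X i ω) (fun i => c i ω) v n (k + 1)))
      (fun k => ((dcf_law h1 h4b hd hp hp1 hX hn0 (Nat.succ_pos k) v
        (F n (k + 1))).1).aestronglyMeasurable) ?_
    filter_upwards [hg n hn hn0] with ω h3
    refine tendsto_const_nhds.congr' ?_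
    have h4 := (tendsto_add_atTop_nat 1).eventually h3
    filter_upwards [h4] with k hk
    exact hk.symm
  have hfirst : ∀ n, n0 ≤ n → 0 < n → Integrable (g n) P ∧
      Tendsto (fun k : ℕ => ex ((1 / k : ℝ) ^ d * Real.exp (-(1 / k : ℝ) ^ d)) p (F n k)) atTop
        (𝓝 (∫ ω, g n ω ∂P)) := by
    intro n hn hn0
    refine ⟨hD.mono' (hgm n hn hn0) (hbd n hn hn0), ?_⟩
    have h5 : Tendsto (fun k : ℕ =>
        ∫ ω, F n k (dcf (fun i => X i ω) (fun i => c i ω) v n k) ∂P) atTop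
        (𝓝 (∫ ω, g n ω ∂P)) := by
      refine tendsto_integral_filter_of_dominated_convergence D ?_ ?_ hD ?_
      · filter_upwards [eventually_gt_atTop 0] with k hk
        exact ((dcf_law h1 h4b hd hp hp1 hX hn0 hk v (F n k)).1).aestronglyMeasurable
      · filter_upwards [eventually_gt_atTop 0] with k hk
        filter_upwards [hF] with ω h6
        exact h6 n k hn0 hk
      · filter_upwards [hg n hn hn0] with ω h3
        refine tendsto_const_nhds.congr' ?_
        filter_upwards [h3] with k hk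
        exact hk.symm
    refine h5.congr' ?_
    filter_upwards [eventually_gt_atTop 0] with k hk
    exact (dcf_law h1 h4b hd hp hp1 hX hn0 hk v (F n k)).2
  refine ⟨hfirst, ?_⟩
  have hevn : ∀ᶠ n in atTop, n0 ≤ n ∧ 0 < n :=
    (eventually_ge_atTop n0).and (eventually_gt_atTop 0)
  have hGm : AEStronglyMeasurable G P := by
    refine aestronglyMeasurable_of_tendsto_ae (u := atTop)
      (f := fun n ω => g (n + (n0 + 1)) ω) (fun n => hgm _ (by omega) (by omega)) ?_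
    filter_upwards [hG] with ω h3
    refine tendsto_const_nhds.congr' ?_
    have h4 := (tendsto_add_atTop_nat (n0 + 1)).eventually h3
    filter_upwards [h4] with k hk
    exact hk.symm
  have hGbd : ∀ᵐ ω ∂P, ‖G ω‖ ≤ D ω := by
    have h7 : ∀ᵐ ω ∂P, ∀ n, n0 ≤ n → 0 < n → ‖g n ω‖ ≤ D ω := by
      rw [ae_all_iff]
      intro n
      by_cases h : n0 ≤ n ∧ 0 < n
      · filter_upwards [hbd n h.1 h.2] with ω hω
        intro _ _
        exact hω
      · refine Eventually.of_forall fun ω h8 h9 => absurd ⟨h8, h9⟩ h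
    filter_upwards [h7, hG] with ω h8 h9
    obtain ⟨n, hn, hn1⟩ := (h9.and hevn).exists
    rw [← hn]
    exact h8 n hn1.1 hn1.2
  refine ⟨hD.mono' hGm hGbd, ?_⟩
  refine tendsto_integral_filter_of_dominated_convergence D ?_ ?_ hD ?_
  · filter_upwards [hevn] with n hn
    exact hgm n hn.1 hn.2
  · filter_upwards [hevn] with n hn
    exact hbd n hn.1 hn.2
  · filter_upwards [hG] with ω h3
    refine tendsto_const_nhds.congr' ?_
    filter_upwards [h3] with k hk
    exact hk.symm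

end Pool.Agent.Lib_helper33.ASM
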