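import Pool.Agent.Lib_helper77.ASM.T5b

/-!
# T5, part c: the configuration of a large box agrees locally with the full configuration; counting
-/

set_option autoImplicit false
set_option linter.unusedSectionVars false
set_option linter.style.haveILetI false

open scoped BigOperators ENNReal
open MeasureTheory Filter Topology

namespace Pool.Agent.Lib_helper33.ASM

variable {d : ℕ}

lemma mem_box_of_norm_lt {y : Sp d} {n : ℕ} (h : ‖y‖ < n) : y ∈ box n := by
  intro i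
  have h1 : |y i| ≤ ‖y‖ := by
    have := PiLp.norm_apply_le y i
    rwa [Real.norm_eq_abs] at this
  have h2 : |y i| < n := h1.trans_lt h
  rw [abs_lt] at h2
  exact ⟨h2.1.le, h2.2⟩

lemma near_finite {x : ℕ → Sp d} (hx : Nice x) (j : Fin d → ℤ) (t : ℝ) :
    {k | ∃ s, cb (x s) = j ∧ dist (x s) (x k) < t}.Finite := by
  obtain ⟨C, hC⟩ := cube_norm (d := d) j
  refine (hx.lf (C + t)).subset ?_
  rintro k ⟨s, hs, hk⟩
  have h1 := hC (x s) hs
  have h2 : ‖x k‖ ≤ ‖x s‖ + dist (x s) (x k) := by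
    have h3 := norm_le_norm_add_norm_sub' (x k) (x s)
    rw [dist_eq_norm, norm_sub_rev]
    exact h3
  change ‖x k‖ ≤ C + t
  linarith

lemma bcf_agree (h3 : StmtT3) {x : ℕ → Sp d} (hx : Nice x) (cc : ℕ → Bool) (v j : Fin d → ℤ)
    (t : ℝ) : ∀ᶠ n in atTop, ∀ s, cb (x s) = j → bcf x cc v n s = full cc s ∧
      ∀ k, dist (x s) (x k) < t → bcf x cc v n k = full cc k ∧
        (mt x (bcf x cc v n) s k ↔ mt x (full cc) s k) := by
  classical
  obtain ⟨-, hb, -⟩ := h3 d x hx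
  choose F hF using hb (full cc)
  have hev : ∀ i, ∀ᶠ n : ℕ in atTop, x i - iv v ∈ box n := by
    intro i
    obtain ⟨m, hm⟩ := exists_nat_gt ‖x i - iv v‖
    filter_upwards [eventually_ge_atTop m] with n hn
    exact mem_box_of_norm_lt (hm.trans_le (by exact_mod_cast hn))
  set S0 := (nice_finite hx j).toFinset with hS0
  set S1 := (near_finite hx j t).toFinset with hS1
  set U : Finset ℕ := S0 ∪ S1 ∪ (S0.biUnion fun s => S1.biUnion fun k => F s k) with hU
  have hevU : ∀ᶠ n : ℕ in atTop, ∀ i ∈ U, x i - iv v ∈ box n := by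
    rw [eventually_all_finset]
    exact fun i _ => hev i
  filter_upwards [hevU] with n hn s hs
  have hbcf : ∀ i ∈ U, bcf x cc v n i = full cc i := by
    intro i hi
    unfold bcf er
    exact if_neg (fun h => h (hn i hi))
  have hs0 : s ∈ S0 := by
    rw [hS0, Set.Finite.mem_toFinset]
    exact hs
  refine ⟨hbcf s ?_, fun k hk => ?_⟩
  · rw [hU]
    exact Finset.mem_union_left _ (Finset.mem_union_left _ hs0)
  have hk1 : k ∈ S1 := by
    rw [hS1, Set.Finite.mem_toFinset]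
    exact ⟨s, hs, hk⟩
  refine ⟨hbcf k ?_, ?_⟩
  · rw [hU]
    exact Finset.mem_union_left _ (Finset.mem_union_right _ hk1)
  · have h4 := hF s k {i | x i - iv v ∈ box n} (fun i hi => hn i ?_)
    · have h5 : ({i | x i - iv v ∈ box n}ᶜ : Set ℕ) = {i | x i - iv v ∉ box n} := rfl
      rw [h5] at h4
      exact h4
    · rw [hU]
      refine Finset.mem_union_right _ ?_
      rw [Finset.mem_biUnion]
      exact ⟨s, hs0, Finset.mem_biUnion.2 ⟨k, hk1, hi⟩⟩

lemma uc_bcf (h3 : StmtT3) {x : ℕ → Sp d} (hx : Nice x) (cc : ℕ → Bool) (v j : Fin d → ℤ)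
    (b : Bool) (t : ℝ) : ∀ᶠ n in atTop, uc x (bcf x cc v n) b j t = uc x (full cc) b j t := by
  filter_upwards [bcf_agree h3 hx cc v j t] with n hn
  unfold uc
  congr 2
  ext s
  constructor
  · rintro ⟨h1, h2, h4⟩
    obtain ⟨h5, h6⟩ := hn s h1
    refine ⟨h1, by rw [← h5]; exact h2, by rw [← h5]; exact h4.1, ?_⟩
    rintro ⟨k, hk, hk2⟩
    exact h4.2 ⟨k, ((h6 k hk2).2).2 hk, hk2⟩
  · rintro ⟨h1, h2, h4⟩
    obtain ⟨h5, h6⟩ := hn s h1
    refine ⟨h1, by rw [h5]; exact h2, by rw [h5]; exact h4.1, ?_⟩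
    rintro ⟨k, hk, hk2⟩
    exact h4.2 ⟨k, ((h6 k hk2).2).1 hk, hk2⟩

lemma pc_bcf (h3 : StmtT3) {x : ℕ → Sp d} (hx : Nice x) (cc : ℕ → Bool) (v j j' : Fin d → ℤ)
    (b b' : Bool) (t : ℝ) :
    ∀ᶠ n in atTop, pc x (bcf x cc v n) b b' j j' t = pc x (full cc) b b' j j' t := by
  filter_upwards [bcf_agree h3 hx cc v j t] with n hn
  unfold pc
  congr 2
  ext e
  constructor
  · rintro ⟨h1, h2, h4, h5, h6, h7⟩
    obtain ⟨h8, h9⟩ := hn e.1 h1
    obtain ⟨h10, h11⟩ := h9 e.2 h7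
    exact ⟨h1, h2, by rw [← h8]; exact h4, by rw [← h10]; exact h5, h11.1 h6, h7⟩
  · rintro ⟨h1, h2, h4, h5, h6, h7⟩
    obtain ⟨h8, h9⟩ := hn e.1 h1
    obtain ⟨h10, h11⟩ := h9 e.2 h7
    exact ⟨h1, h2, by rw [h8]; exact h4, by rw [h10]; exact h5, h11.2 h6, h7⟩

lemma ncard_fiber {α β : Type*} [DecidableEq β] {S : Set α} (hS : S.Finite) (f : α → β)
    (J : Finset β) (hf : ∀ a ∈ S, f a ∈ J) : S.ncard = ∑ b ∈ J, {a | a ∈ S ∧ f a = b}.ncard := by
  classical
  rw [Set.ncard_eq_toFinset_card S hS,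
    Finset.card_eq_sum_card_fiberwise (f := f) (s := hS.toFinset) (t := J)]
  · refine Finset.sum_congr rfl fun b _ => ?_
    rw [← Set.ncard_coe_finset]
    congr 1
    ext a
    simp
  · intro a ha
    simp only [Set.Finite.coe_toFinset] at ha
    exact hf a ha

end Pool.Agent.Lib_helper33.ASM
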