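import Pool.Agent.Lib_helper77.ASM.T5c

/-!
# T5, part d: mass transport, the deterministic counting
-/

set_option autoImplicit false
set_option linter.unusedSectionVars false
set_option linter.style.haveILetI false

open scoped BigOperators ENNReal
open MeasureTheory Filter Topology

namespace Pool.Agent.Lib_helper33.ASM

variable {d : ℕ}

/-- blue-red pairs matched before `t`, blue point in the cube `j`, red point in a cube of `J` -/
def A1 (x : ℕ → Sp d) (ω : Cfg ℕ) (j : Fin d → ℤ) (J : Finset (Fin d → ℤ)) (t : ℝ) :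
    Set (ℕ × ℕ) :=
  {e | cb (x e.1) = j ∧ cb (x e.2) ∈ J ∧ ω e.1 = some false ∧ ω e.2 = some true ∧
    mt x ω e.1 e.2 ∧ dist (x e.1) (x e.2) < t}

/-- blue-red pairs matched before `t`, red point in the cube `j`, blue point in a cube of `-J` -/
def A2 (x : ℕ → Sp d) (ω : Cfg ℕ) (j : Fin d → ℤ) (J : Finset (Fin d → ℤ)) (t : ℝ) :
    Set (ℕ × ℕ) :=
  {e | -cb (x e.1) ∈ J ∧ cb (x e.2) = j ∧ ω e.1 = some false ∧ ω e.2 = some true ∧
    mt x ω e.1 e.2 ∧ dist (x e.1) (x e.2) < t}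

lemma A1_finite {x : ℕ → Sp d} (hx : Nice x) (ω : Cfg ℕ) (j : Fin d → ℤ)
    (J : Finset (Fin d → ℤ)) (t : ℝ) : (A1 x ω j J t).Finite := by
  refine ((nice_finite hx j).prod (near_finite hx j t)).subset ?_
  rintro e ⟨h1, -, -, -, -, h6⟩
  exact ⟨h1, e.1, h1, h6⟩

lemma A2_finite {x : ℕ → Sp d} (hx : Nice x) (ω : Cfg ℕ) (j : Fin d → ℤ)
    (J : Finset (Fin d → ℤ)) (t : ℝ) : (A2 x ω j J t).Finite := by
  refine ((near_finite hx j t).prod (nice_finite hx j)).subset ?_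
  rintro e ⟨-, h2, -, -, -, h6⟩
  exact ⟨⟨e.2, h2, by rw [dist_comm]; exact h6⟩, h2⟩

lemma sum_pc_A1 {x : ℕ → Sp d} (hx : Nice x) (ω : Cfg ℕ) (j : Fin d → ℤ)
    (J : Finset (Fin d → ℤ)) (t : ℝ) :
    ∑ j' ∈ J, pc x ω false true j j' t = ((A1 x ω j J t).ncard : ℝ) := by
  classical
  rw [ncard_fiber (A1_finite hx ω j J t) (fun e => cb (x e.2)) J (fun e he => he.2.1),
    Nat.cast_sum]
  refine Finset.sum_congr rfl fun j' hj' => ?_
  unfold pc
  congr 2
  ext e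
  constructor
  · rintro ⟨h1, h2, h3, h4, h5, h6⟩
    exact ⟨⟨h1, by rw [h2]; exact hj', h3, h4, h5, h6⟩, h2⟩
  · rintro ⟨⟨h1, -, h3, h4, h5, h6⟩, h2⟩
    exact ⟨h1, h2, h3, h4, h5, h6⟩

lemma sum_pc_A2 {x : ℕ → Sp d} (hx : Nice x) (ω : Cfg ℕ) (j : Fin d → ℤ)
    (J : Finset (Fin d → ℤ)) (t : ℝ) :
    ∑ j' ∈ J, pc x ω false true (-j') j t = ((A2 x ω j J t).ncard : ℝ) := by
  classical
  rw [ncard_fiber (A2_finite hx ω j J t) (fun e => -cb (x e.1)) J (fun e he => he.1),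
    Nat.cast_sum]
  refine Finset.sum_congr rfl fun j' hj' => ?_
  unfold pc
  congr 2
  ext e
  constructor
  · rintro ⟨h1, h2, h3, h4, h5, h6⟩
    have h7 : -cb (x e.1) = j' := by rw [h1, neg_neg]
    exact ⟨⟨by rw [h7]; exact hj', h2, h3, h4, h5, h6⟩, h7⟩
  · rintro ⟨⟨-, h2, h3, h4, h5, h6⟩, h1⟩
    refine ⟨?_, h2, h3, h4, h5, h6⟩
    change -cb (x e.1) = j' at h1
    rw [← h1, neg_neg]

/-- the points of colour `b` in the cube `j` -/
def Sb (x : ℕ → Sp d) (ω : Cfg ℕ) (b : Bool) (j : Fin d → ℤ) : Set ℕ :=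
  {s | cb (x s) = j ∧ ω s = some b}

lemma Sb_finite {x : ℕ → Sp d} (hx : Nice x) (ω : Cfg ℕ) (b : Bool) (j : Fin d → ℤ) :
    (Sb x ω b j).Finite := (nice_finite hx j).subset fun _ hs => hs.1

/-- the points of colour `b` in the cube `j`, unmatched at time `t` -/
def Ub (x : ℕ → Sp d) (ω : Cfg ℕ) (b : Bool) (j : Fin d → ℤ) (t : ℝ) : Set ℕ :=
  {s | cb (x s) = j ∧ ω s = some b ∧ Un x ω t s}

lemma Ub_sub (x : ℕ → Sp d) (ω : Cfg ℕ) (b : Bool) (j : Fin d → ℤ) (t : ℝ) :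
    Ub x ω b j t ⊆ Sb x ω b j := fun _ hs => ⟨hs.1, hs.2.1⟩

lemma claim1a {x : ℕ → Sp d} (hx : Nice x) {ω : Cfg ℕ} (hM : IsKer x ω (mt x ω))
    (J : Finset (Fin d → ℤ)) (t : ℝ) :
    (Ub x ω false 0 t).ncard + (A1 x ω 0 J t).ncard ≤ (Sb x ω false 0).ncard := by
  have hfin := Sb_finite hx ω false 0
  have h1 : (A1 x ω 0 J t).ncard ≤ (Sb x ω false 0 \ Ub x ω false 0 t).ncard := by
    refine Set.ncard_le_ncard_of_injOn Prod.fst ?_ ?_ (hfin.subset Set.sdiff_subset)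
    · rintro e ⟨h1, h2, h3, h4, h5, h6⟩
      exact ⟨⟨h1, h3⟩, fun h => h.2.2.2 ⟨e.2, h5, h6⟩⟩
    · rintro ⟨e1, e2⟩ he ⟨f1, f2⟩ hf hef
      have h1 : mt x ω e1 e2 := he.2.2.2.2.1
      have h2 : mt x ω f1 f2 := hf.2.2.2.2.1
      change e1 = f1 at hef
      subst hef
      rw [hM.unique_partner hx.gen h1 h2]
  have h2 := Set.ncard_sdiff_add_ncard_of_subset (Ub_sub x ω false 0 t) hfin
  omega

lemma claim1b {x : ℕ → Sp d} (hx : Nice x) {ω : Cfg ℕ} (hM : IsKer x ω (mt x ω))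
    (J : Finset (Fin d → ℤ)) (T : ℕ)
    (hJ : ∀ j' : Fin d → ℤ, (∀ a, |j' a| ≤ (T : ℤ) + 1) → j' ∈ J) :
    (Sb x ω false 0).ncard ≤ (A1 x ω 0 J T).ncard + (Ub x ω false 0 T).ncard := by
  classical
  have hfin := Sb_finite hx ω false 0
  have h2 := Set.ncard_sdiff_add_ncard_of_subset (Ub_sub x ω false 0 (T : ℝ)) hfin
  have h1 : (Sb x ω false 0 \ Ub x ω false 0 T).ncard ≤ (A1 x ω 0 J T).ncard := by
    have hex : ∀ s ∈ Sb x ω false 0 \ Ub x ω false 0 T, ∃ k, mt x ω s k ∧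
        dist (x s) (x k) < T := by
      rintro s ⟨⟨h3, h4⟩, h5⟩
      by_contra hcon
      refine h5 ⟨h3, h4, by rw [h4]; simp, ?_⟩
      rintro ⟨k, hk⟩
      exact hcon ⟨k, hk⟩
    choose! f hf using hex
    refine Set.ncard_le_ncard_of_injOn (fun s => (s, f s)) ?_ ?_ (A1_finite hx ω 0 J T)
    · intro s hs
      obtain ⟨h3, h4⟩ := hf s hs
      have hok := hM.ok h3
      obtain ⟨⟨h5, h6⟩, h7⟩ := hs
      refine ⟨h5, hJ _ fun a => ?_, h6, ?_, h3, h4⟩
      · have h8 : |x (f s) a - x s a| < T := by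
          have h9 : |(x (f s) - x s) a| ≤ ‖x (f s) - x s‖ := by
            have := PiLp.norm_apply_le (x (f s) - x s) a
            rwa [Real.norm_eq_abs] at this
          rw [dist_comm, dist_eq_norm] at h4
          exact lt_of_le_of_lt h9 h4
        have h10 : ⌊x s a⌋ = 0 := congrFun h5 a
        have h11 := Int.floor_le (x s a)
        have h12 := Int.lt_floor_add_one (x s a)
        rw [h10] at h11 h12
        rw [abs_lt] at h8
        push_cast at h11 h12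
        have h13 : ⌊x (f s) a⌋ < (T : ℤ) + 1 := by
          rw [Int.floor_lt]
          push_cast
          linarith [h8.2]
        have h14 : -(T : ℤ) - 1 ≤ ⌊x (f s) a⌋ := by
          rw [Int.le_floor]
          push_cast
          linarith [h8.1]
        change |⌊x (f s) a⌋| ≤ (T : ℤ) + 1
        rw [abs_le]
        constructor <;> omega
      · rcases hok.2.2.2 with h9 | h9
        · rw [h6] at h9
          simp at h9
        · exact h9
    · intro s _ s' _ h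
      exact (Prod.ext_iff.1 h).1
  omega

lemma claim1 {x : ℕ → Sp d} (hx : Nice x) {ω : Cfg ℕ} (hM : IsKer x ω (mt x ω))
    (J : Finset (Fin d → ℤ)) (t T : ℕ)
    (hJ : ∀ j' : Fin d → ℤ, (∀ a, |j' a| ≤ (T : ℤ) + 1) → j' ∈ J) :
    uc x ω false 0 t + ∑ j' ∈ J, pc x ω false true 0 j' t ≤
      ∑ j' ∈ J, pc x ω false true 0 j' T + uc x ω false 0 T := by
  rw [sum_pc_A1 hx, sum_pc_A1 hx]
  have h1 := claim1a hx hM J t
  have h2 := claim1b hx hM J T hJ
  have h3 : (Ub x ω false 0 t).ncard + (A1 x ω 0 J t).ncard ≤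
      (A1 x ω 0 J T).ncard + (Ub x ω false 0 T).ncard := h1.trans h2
  unfold uc
  exact_mod_cast h3

lemma claim2 {x : ℕ → Sp d} (hx : Nice x) {ω : Cfg ℕ} (hM : IsKer x ω (mt x ω))
    (J : Finset (Fin d → ℤ)) (t T : ℝ) :
    ∑ j' ∈ J, pc x ω false true (-j') 0 T ≤
      ∑ j' ∈ J, pc x ω false true (-j') 0 t + uc x ω true 0 t := by
  rw [sum_pc_A2 hx, sum_pc_A2 hx]
  have hA : (A2 x ω 0 J T \ A2 x ω 0 J t).ncard ≤ (Ub x ω true 0 t).ncard := by
    refine Set.ncard_le_ncard_of_injOn Prod.snd ?_ ?_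
      ((Sb_finite hx ω true 0).subset (Ub_sub x ω true 0 t))
    · rintro e ⟨⟨h1, h2, h3, h4, h5, h6⟩, h7⟩
      refine ⟨h2, h4, by rw [h4]; simp, ?_⟩
      rintro ⟨k, hk, hk2⟩
      have h8 := hM.unique_partner hx.gen hk (hM.symm h5)
      rw [h8, dist_comm] at hk2
      exact h7 ⟨h1, h2, h3, h4, h5, hk2⟩
    · rintro ⟨e1, e2⟩ he ⟨f1, f2⟩ hf hef
      have h1 : mt x ω e1 e2 := he.1.2.2.2.2.1
      have h2 : mt x ω f1 f2 := hf.1.2.2.2.2.1
      change e2 = f2 at hef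
      subst hef
      rw [hM.unique_partner hx.gen (hM.symm h1) (hM.symm h2)]
  have h1 : (A2 x ω 0 J T).ncard ≤ (A2 x ω 0 J t).ncard + (A2 x ω 0 J T \ A2 x ω 0 J t).ncard := by
    have h3 : A2 x ω 0 J T ⊆ A2 x ω 0 J t ∪ (A2 x ω 0 J T \ A2 x ω 0 J t) := by
      intro e he
      by_cases h : e ∈ A2 x ω 0 J t
      · exact Or.inl h
      · exact Or.inr ⟨he, h⟩
    exact (Set.ncard_le_ncard h3 ((A2_finite hx ω 0 J t).union
      ((A2_finite hx ω 0 J T).subset Set.sdiff_subset))).trans (Set.ncard_union_le _ _)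
  have h3 : (A2 x ω 0 J T).ncard ≤ (A2 x ω 0 J t).ncard + (Ub x ω true 0 t).ncard := by omega
  unfold uc
  exact_mod_cast h3

/-- if all points are matched, there are no unmatched points in the cube at large times -/
lemma uc_zero {x : ℕ → Sp d} (hx : Nice x) {ω : Cfg ℕ} (hall : ∀ i, ∃ k, mt x ω i k) (b : Bool)
    (j : Fin d → ℤ) : ∀ᶠ T : ℕ in atTop, uc x ω b j T = 0 := by
  choose f hf using hall
  have hev : ∀ᶠ T : ℕ in atTop, ∀ s ∈ (nice_finite hx j).toFinset, dist (x s) (x (f s)) < T := by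
    rw [eventually_all_finset]
    intro s _
    obtain ⟨m, hm⟩ := exists_nat_gt (dist (x s) (x (f s)))
    filter_upwards [eventually_ge_atTop m] with n hn
    exact hm.trans_le (by exact_mod_cast hn)
  filter_upwards [hev] with T hT
  unfold uc
  have h : {s | cb (x s) = j ∧ ω s = some b ∧ Un x ω T s} = ∅ := by
    rw [Set.eq_empty_iff_forall_notMem]
    rintro s ⟨h1, h2, h3⟩
    refine h3.2 ⟨f s, hf s, hT s ?_⟩
    rw [Set.Finite.mem_toFinset]
    exact h1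
  rw [h]
  simp

end Pool.Agent.Lib_helper33.ASM
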